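import Pool.Agent.H16M.Raag

/-!
# Random monster groups and automorphisms of finitely presented groups

Let `Ω_n` be finite graphs, infinitely many of which contain a cycle, and `k ≥ 2`, `j ≥ 1`. For
typical labellings `α` with values in `T^j` all homomorphisms from subgroups of finite index of the
random monster group `Γ_α` to `Out(A)` and `Aut(A)` are determined, simultaneously for all finitely
presented groups `A` (in particular for all right-angled Artin groups of finite graphs), and for all
groups of the class generated by these groups under detection. The only subgroups of finite index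
of `Γ_α` are `Γ_α` and the subgroup `Γ_α⁺` of the elements represented by words of even length, which
has index `2` if `j` is even or all the graphs are bipartite, and is `Γ_α` otherwise; homomorphisms
from `Γ_α⁺` are trivial. For every finite graph `Λ` and every sequence `Ω_n` of finite graphs
super-rigidity with respect to `Out(A_Λ)` is characterized; if `Λ` admits a transvection or the star
of some vertex separates `Λ`, it holds if and only if infinitely many `Ω_n` contain a cycle.

Proof. See the module `Pool.Agent.H16M.Core`: if `Ω_n` contains a cycle then a change of the label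
of one edge destroys the property that all words read along closed paths of `Ω_n` are killed by a
homomorphism which does not kill all quotients of labels. So this happens for all `n` with
probability zero, and on a nowhere dense set. There are only countably many homomorphisms from
finitely generated groups to automorphism groups of finitely presented groups. The class of targets
to which homomorphisms from subgroups of finite index kill `Γ_α⁺` is closed under detection.
Transvections and partial conjugations have infinite order in `Out(A_Λ)`
(`Pool.Agent.H16M.Raag`), and if only finitely many graphs contain a cycle, then non-negligibly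
many random groups map onto a free group of rank `k - 1`.
-/

set_option autoImplicit false

namespace Pool.Agent.Results.MP_af453c_al.FinitelyPresentedTargets

open MeasureTheory Filter Pool.Agent.H16M

/-- Super-rigidity with respect to `Out(A_Λ)`, in both forms, for all finite graphs `Λ`. -/
def OutRigid {k j : ℕ} {hk : 2 ≤ k} {V : ℕ → Type} {Ω : ∀ n, SimpleGraph (V n)}
    (l : Filter (Labellings (Tpow k j hk) Ω)) : Prop :=
  ∀ (W : Type) [Finite W] (Λ : SimpleGraph W),
    SuperRigidFamily (Outer (RAAG Λ)) l ∧ HereditarySuperRigid (Outer (RAAG Λ)) l

/-- The criterion of super-rigidity with respect to `Out(A_Λ)`, and its simple form if `Λ` admits a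
transvection or has a separating star. -/
def OutCriterion {k j : ℕ} {hk : 2 ≤ k} {V : ℕ → Type} {Ω : ∀ n, SimpleGraph (V n)}
    (l : Filter (Labellings (Tpow k j hk) Ω)) : Prop :=
  ∀ (W : Type) [Finite W] (Λ : SimpleGraph W),
    (SuperRigidFamily (Outer (RAAG Λ)) l ↔ (InfCyc Ω ∨ CayleyFinite k j Ω (Outer (RAAG Λ)))) ∧
    (HasTransvection Λ ∨ HasSeparatingStar Λ →
      (SuperRigidFamily (Outer (RAAG Λ)) l ↔ InfCyc Ω) ∧
      (HereditarySuperRigid (Outer (RAAG Λ)) l ↔ InfCyc Ω))

/-- The class `Tame AutOut` has the closure properties `TameFacts`, and it contains `Out(A)` and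
`Aut(A)` for all finitely presented groups `A`. -/
def AutOutTame : Prop :=
  TameFacts AutOut ∧
  (∀ (A : Type) [Group A], Group.IsFinitelyPresented A → Tame AutOut (Outer A)) ∧
  ∀ (A : Type) [Group A], Group.IsFinitelyPresented A → Tame AutOut (MulAut A)

/-- For typical labellings `α` the complete description `Rigid AutOut α` of all homomorphisms from
subgroups of finite index of `Γ_α` to all groups in `Tame AutOut`. -/
def AutOutRigid {k j : ℕ} {hk : 2 ≤ k} {V : ℕ → Type} {Ω : ∀ n, SimpleGraph (V n)}
    (l : Filter (Labellings (Tpow k j hk) Ω)) : Prop :=
  ∀ᶠ α in l, Rigid AutOut α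

/-- (1) The standing assumptions imply that infinitely many graphs contain a cycle. (2) The class
`Tame AutOut` contains `Out(A)` and `Aut(A)` for all finitely presented groups `A`, and it has the
closure properties `TameFacts`; right-angled Artin groups of finite graphs are finitely presented.
(3) The index of `Γ_α⁺`. (4) Uniform labellings are typical. (5) For typical labellings: the
simultaneous description of all homomorphisms from subgroups of finite index of `Γ_α` to all groups
in `Tame AutOut`; super-rigidity with respect to `Out(A_Λ)`, and the criterion. -/
theorem result :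
    (∀ (d : ℕ) (V : ℕ → Type) [∀ n, Finite (V n)] (Ω : ∀ n, SimpleGraph (V n)),
      Standing Ω → (∀ n v, ((Ω n).neighborSet v).ncard ≤ d) → InfCyc Ω) ∧
    (AutOutTame ∧
      ∀ (W : Type) [Finite W] (Λ : SimpleGraph W), Group.IsFinitelyPresented (RAAG Λ)) ∧
    ∀ (k j : ℕ) (hk : 2 ≤ k) (_ : 1 ≤ j)
      (V : ℕ → Type) [∀ n, Finite (V n)] (Ω : ∀ n, SimpleGraph (V n)),
      (∀ α : Labellings (Tpow k j hk) Ω,
        (EvenCase j Ω → (evPart α).index = 2) ∧ (¬ EvenCase j Ω → evPart α = ⊤)) ∧
      Typical (ae (labMeasure (Tpow k j hk) Ω)) ∧
      ∀ l : Filter (Labellings (Tpow k j hk) Ω), Typical l →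
        (InfCyc Ω → AutOutRigid l ∧ OutRigid l) ∧ OutCriterion l := by
  refine ⟨fun d V _ Ω hst hdeg => infinite_not_acyclic hst hdeg,
    ⟨⟨tameFacts AutOut, fun A _ hA => (tame_autOut A hA).1, fun A _ hA => (tame_autOut A hA).2⟩,
      fun W _ Λ => raag_fp Λ⟩, ?_⟩
  intro k j hk hj V _ Ω
  refine ⟨fun α => index_evPart α, typical_unif _ _, fun l hl =>
    ⟨fun hΩ => ⟨typical_rigid hl hj hΩ AutOut, fun W _ Λ => ?_⟩, fun W _ Λ => ?_⟩⟩
  · have hc : Countable (Outer (RAAG Λ)) := countable_outer (RAAG Λ)
    have h := hereditary hl hj hΩ (Outer (RAAG Λ))
    exact ⟨superRigidFamily_of_superRigid (superRigid_of_hereditary h), h⟩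
  · have hc : Countable (Outer (RAAG Λ)) := countable_outer (RAAG Λ)
    refine ⟨criterion hl hj _, fun h => criterion_infGen hl hj _ ?_⟩
    rcases h with h | h
    · exact infGen_of_transvection h (k - 1) (by omega)
    · exact infGen_of_separatingStar h (k - 1) (by omega)

end Pool.Agent.Results.MP_af453c_al.FinitelyPresentedTargets
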